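import Pool.Agent.Q123.ET.GrowthH

/-!
# The Erdős–Turán conjecture of order `h`: a moment inequality over chains of windows

`repU A h n` is the number of the multisets of `h` elements of `A` with sum `n` (the unordered
representation function of order `h`), and `cnt A x` the number of elements of `A` less than `x`.
A *window* is the intersection of an interval `[s, s + L)` with a residue class modulo `q`;
`CoveredW F q L N` means that `F` is covered by `N` of them.  In a *chain* of windows
(`WindowChain`) the moduli `q_0, q_1, …` are successive divisors (`q_{j+1} ∣ q_j`), the lengths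
`L_0 ≤ L_1 ≤ …` increase, `1 ≤ q_j ≤ L_j`, and `L_j / q_j` grows at least by the factor 4 from one
window to the next.

1. If a finite set `F` is covered by `N_j` windows number `j`, `j < J`, then for every `h ≥ 2` the
   number of the pairs of `h`-tuples of elements of `F` with equal sums is at least
   `|F| ^ (2 h) / (4 · 8 ^ h) · ∑_j q_j / (L_j N_j ^ h)`.
2. So if `r_{A,h}(n) ≤ K` for `n < h x` then `A(x) ^ h ∑_j q_j / (L_j N_j ^ h) ≤ 4 · 8 ^ h h! K` for
   all chains of windows, where `N_j` windows cover `A ∩ [0, x)`.
3. `A` is *chain-homogeneous* if, for some `b ≥ 4` and `B` and all `k`, the set `A ∩ [0, b ^ k)` is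
   covered by `B · A(B b ^ (k - j))` windows with about `b ^ j` elements, `j = 0, …, k`, which form a
   chain.  This holds if, for some `g ≥ 2`, `A` is closed under division by `g` up to a bounded error
   (for instance `⌊a / g⌋ ∈ A` for all `a ∈ A`), and also if `A` is closed under reduction modulo the
   powers of `g` (for instance `a mod g ^ i ∈ A` for all `a ∈ A` and `i`); so it holds if the base `g`
   expansions of the elements form a language which is closed under prefixes, or under suffixes.
4. If `A` is chain-homogeneous, `h ≥ 2` and `A(x) ^ h ≥ c x` for all large `x`, then for all large `x`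
   some `n < h x` has `r_{A,h}(n) ≥ c' log x / log log x`.
5. In particular the conjecture of Erdős and Turán holds for all chain-homogeneous asymptotic bases
   `A` of order `h`, for every `h ≥ 2`.

Method.  Let `S` be the exponential sum over `F`, and let `M_j` be the set of the frequencies within
`1 / (8 L_j)` of a multiple of `1 / q_j`.  The integral of `|S|²` over `M_j` is at least
`c |F|² q_j / (L_j N_j)` (a Fejér kernel with nonnegative coefficients), the sets `M_j` are nested, and a
discrete Hardy inequality bounds the sum over `j` of the `h`-th powers of these integrals, suitably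
normalised, by the `2h`-th moment of `S`.  For 4 the inequality is used for all `x = b ^ k` together
(a discrete Gronwall argument).
-/

namespace Pool.Agent.Results.MP_d5a1e1_nt.ChainWindows

open Finset Filter Q123.ET

/-- For all large `x` some `n < h x` has `r_{A,h}(n) ≥ c log x / log log x`. -/
def LargeValues (A : Set ℕ) (h : ℕ) : Prop :=
  ∃ c : ℝ, 0 < c ∧ ∀ᶠ x : ℕ in atTop, ∃ n < h * x,
    c * Real.log x ≤ repU A h n * Real.log (Real.log x)

lemma unbounded {A : Set ℕ} {h : ℕ} (hL : LargeValues A h) (r : ℕ) : ∃ n, r < repU A h n := by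
  obtain ⟨c, hc, hL⟩ := hL
  by_contra hcon
  push Not at hcon
  have hlog : Tendsto (fun x : ℕ => Real.log x) atTop atTop :=
    Real.tendsto_log_atTop.comp tendsto_natCast_atTop_atTop
  have hlo : ∀ᶠ X : ℝ in atTop, (r + 1) * Real.log X ≤ c / 2 * X := by
    have h := Real.isLittleO_log_id_atTop.bound (show (0 : ℝ) < c / (2 * (r + 1)) by positivity)
    filter_upwards [h, eventually_ge_atTop 1] with X h1 h2
    rw [Real.norm_of_nonneg (Real.log_nonneg h2), id, Real.norm_of_nonneg (by linarith)] at h1
    calc ((r : ℝ) + 1) * Real.log X ≤ (r + 1) * (c / (2 * (r + 1)) * X) :=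
          mul_le_mul_of_nonneg_left h1 (by positivity)
      _ = _ := by field_simp
  obtain ⟨x, h1, h2, h3⟩ := (hL.and ((hlog.eventually hlo).and
    (hlog.eventually (eventually_ge_atTop 3)))).exists
  obtain ⟨n, _, hn⟩ := h1
  have h4 : 0 < Real.log (Real.log x) := Real.log_pos (by linarith)
  have h5 : (repU A h n : ℝ) ≤ r := by exact_mod_cast hcon n
  have h6 : (repU A h n : ℝ) * Real.log (Real.log x) ≤ (r + 1) * Real.log (Real.log x) :=
    mul_le_mul_of_nonneg_right (by linarith) h4.le
  nlinarith

theorem result :
    -- 1. the moment inequality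
    (∀ (h J : ℕ) (F : Finset ℕ) (q L N : ℕ → ℕ), 2 ≤ h → WindowChain J q L →
      (∀ j < J, CoveredW (F : Set ℕ) (q j) (L j) (N j)) →
      (#F : ℝ) ^ (2 * h) * ∑ j ∈ range J, (q j : ℝ) / (L j * (N j : ℝ) ^ h) ≤
        4 * 8 ^ h * enH F h) ∧
    -- 2. the inequality for the representation function
    (∀ (A : Set ℕ) (h x J : ℕ) (K : ℝ) (q L N : ℕ → ℕ), 2 ≤ h → 1 ≤ x → WindowChain J q L →
      (∀ n < h * x, (repU A h n : ℝ) ≤ K) →
      (∀ j < J, CoveredW (A ∩ Set.Iio x) (q j) (L j) (N j)) →
      (cnt A x : ℝ) ^ h * ∑ j ∈ range J, (q j : ℝ) / (L j * (N j : ℝ) ^ h) ≤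
        4 * 8 ^ h * h.factorial * K) ∧
    -- 3. classes of chain-homogeneous sets
    (∀ (A : Set ℕ) (g : ℕ), 2 ≤ g → CoarselyClosed g A ∨ ReductionClosed g A →
      ChainHomogeneous A) ∧
    -- 4. large values
    (∀ (A : Set ℕ) (h : ℕ), 2 ≤ h → ChainHomogeneous A →
      (∃ c : ℝ, 0 < c ∧ ∀ᶠ x : ℕ in atTop, c * x ≤ (cnt A x : ℝ) ^ h) → LargeValues A h) ∧
    -- 5. the conjecture for chain-homogeneous bases
    (∀ (A : Set ℕ) (h : ℕ), 2 ≤ h → ChainHomogeneous A → (∀ᶠ n in atTop, (reps A h n).Nonempty) →
      LargeValues A h ∧ ∀ r : ℕ, ∃ n, r < repU A h n) := by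
  refine ⟨fun h J F q L N hh hc hN => windows_energy hh F J q L N hc hN,
    fun A h x J K q L N hh hx hc hK hN => scalesH hh A hx J K q L N hc hK hN, ?_, ?_, ?_⟩
  · intro A g hg h
    rcases h with h | h
    · exact chain_of_homogeneous (homogeneous_of_closed hg h)
    · exact chain_of_reduction hg h
  · rintro A h hh hA ⟨c, hc, hd⟩
    exact growthH hh hA hc hd
  · intro A h hh hA hb
    have h1 : LargeValues A h := by
      refine growthH hh hA (by norm_num) (density_of_basisH ?_)
      filter_upwards [hb] with n hn
      unfold repU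
      rw [Nat.one_le_iff_ne_zero, Ne, Set.ncard_eq_zero (reps_finite A h n)]
      exact hn.ne_empty
    exact ⟨h1, unbounded h1⟩

end Pool.Agent.Results.MP_d5a1e1_nt.ChainWindows
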