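import Pool.Agent.Q208.CF.Automatic

/-!
# The Erdős–Turán conjecture of every order for sets built from context-free sets

A set of natural numbers is called `g`-context-free if the base-`g` expansions of its elements form
a context-free language. Such a set is polylogarithmically thin, or its representation functions of
all orders (and those of all its supersets) are at least a power of `N` infinitely often.
-/

set_option autoImplicit false

open Set

namespace Pool.Agent.Results.MP_d5a1e1_nt.ContextFree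

open Pool.Agent.Q208.CF

/-- The unordered representation function of order `h` of `A`: the number of multisets of `h`
elements of `A` with sum `n`. -/
noncomputable def r (A : Set ℕ) (h n : ℕ) : ℕ :=
  Set.ncard {s : Multiset ℕ | Multiset.card s = h ∧ (∀ a ∈ s, a ∈ A) ∧ s.sum = n}

/-- `A` is an asymptotic basis of order `k`. -/
def IsAsymptoticBasis (A : Set ℕ) (k : ℕ) : Prop :=
  ∃ N : ℕ, ∀ n : ℕ, N ≤ n → ∃ s : Multiset ℕ, Multiset.card s = k ∧ (∀ a ∈ s, a ∈ A) ∧ s.sum = n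

/-- The base-`g` expansions of the elements of `A` form a context-free language. -/
def IsContextFreeSet (g : ℕ) (A : Set ℕ) : Prop :=
  Language.IsContextFree (T := ℕ) (Nat.digits g '' A)

/-- A finite automaton reading base-`g` expansions decides membership in `A`. -/
def IsAutomaticSet (g : ℕ) (A : Set ℕ) : Prop :=
  ∃ (σ : Type) (_ : Fintype σ) (M : DFA ℕ σ), ∀ n, Nat.digits g n ∈ M.accepts ↔ n ∈ A

/-- For some `K`, `r_{A,h}(N) ≥ N^(1/K)` for arbitrarily large `N`. -/
def PowerLarge (A : Set ℕ) (h : ℕ) : Prop :=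
  ∃ K : ℕ, ∀ M : ℕ, ∃ N : ℕ, M ≤ N ∧ N ≤ r A h N ^ K

theorem r_eq (A : Set ℕ) (h n : ℕ) : r A h n = (reps A h n).ncard := rfl

theorem r_mono {A B : Set ℕ} (hBA : B ⊆ A) (h n : ℕ) : r B h n ≤ r A h n := by
  refine Set.ncard_le_ncard ?_ (reps_finite A h n)
  rintro s ⟨h1, h2, h3⟩
  exact ⟨h1, fun a ha => hBA (h2 a ha), h3⟩

theorem PowerLarge.mono {A B : Set ℕ} (hBA : B ⊆ A) {h : ℕ} (hB : PowerLarge B h) :
    PowerLarge A h := by
  obtain ⟨K, hK⟩ := hB
  refine ⟨K, fun M => ?_⟩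
  obtain ⟨N, hN, hN2⟩ := hK M
  exact ⟨N, hN, hN2.trans (Nat.pow_le_pow_left (r_mono hBA h N) K)⟩

/-- Exponentially many representations give a power. -/
theorem powerLarge_of_exp {A : Set ℕ} {g h c : ℕ}
    (H : ∀ m : ℕ, ∃ N : ℕ, N ≤ g ^ (c * (m + 1)) ∧ 2 ^ m ≤ r A h N) : PowerLarge A h := by
  refine ⟨2 * (g * c), fun M => ?_⟩
  -- a bound for the representation function below `M`
  obtain ⟨B, hB⟩ : ∃ B, ∀ n < M, r A h n ≤ B := by
    refine ⟨∑ n ∈ Finset.range M, r A h n, fun n hn => ?_⟩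
    exact Finset.single_le_sum (f := fun n => r A h n) (fun _ _ => Nat.zero_le _)
      (Finset.mem_range.2 hn)
  obtain ⟨N, hN1, hN2⟩ := H (B + 1)
  refine ⟨N, ?_, ?_⟩
  · by_contra hlt
    have h1 := hB N (by omega)
    have h2 : B + 1 < 2 ^ (B + 1) := Nat.lt_two_pow_self
    omega
  · calc N ≤ g ^ (c * (B + 1 + 1)) := hN1
      _ ≤ (2 ^ g) ^ (c * (B + 1 + 1)) := Nat.pow_le_pow_left Nat.lt_two_pow_self.le _
      _ = 2 ^ (g * c * (B + 1 + 1)) := by rw [← pow_mul, mul_assoc]
      _ ≤ 2 ^ ((B + 1) * (2 * (g * c))) := by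
        refine Nat.pow_le_pow_right (by omega) ?_
        have : (B + 1) * (2 * (g * c)) = g * c * (B + 1 + 1) + g * c * B := by ring
        omega
      _ = (2 ^ (B + 1)) ^ (2 * (g * c)) := pow_mul _ _ _
      _ ≤ r A h N ^ (2 * (g * c)) := Nat.pow_le_pow_left hN2 _

/-- Thin or power large. -/
theorem dichotomy {g : ℕ} (hg : 2 ≤ g) {B : Set ℕ} (hB : IsContextFreeSet g B) :
    (∃ E : ℕ, ∀ n, (B ∩ Set.Iio (g ^ n)).ncard ≤ (n + 2) ^ E) ∨ ∀ h, 2 ≤ h → PowerLarge B h := by
  obtain ⟨G, hG⟩ := hB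
  by_cases hN : NoPair G
  · left
    obtain ⟨E, hE⟩ := polynomial_growth hN
    refine ⟨E, fun n => ?_⟩
    obtain ⟨F, hF, hF2⟩ := hE n
    refine le_trans ?_ hF
    rw [← Set.ncard_coe_finset]
    refine Set.ncard_le_ncard_of_injOn (Nat.digits g) ?_ ?_ F.finite_toSet
    · rintro a ⟨ha, ha2⟩
      have h1 : Nat.digits g a ∈ G.language := by
        rw [hG]
        exact ⟨a, ha, rfl⟩
      exact hF2 _ h1 ((Nat.digits_length_le_iff (by omega) a).2 ha2)
    · intro a _ b _ hab
      exact Nat.digits_inj_iff.1 hab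
  · right
    intro h hh
    obtain ⟨c, hc⟩ := many_of_not_noPair hg hG hN h hh
    exact powerLarge_of_exp hc

/-- A polynomial in the length is eventually below the number. -/
theorem size_growth (d e : ℕ) : ∃ M : ℕ, ∀ x, M ≤ x → d * (Nat.size x + 2) ^ e ≤ x := by
  have h1 := tendsto_pow_const_div_const_pow_of_one_lt e (one_lt_two : (1 : ℝ) < 2)
  have h2 : (0 : ℝ) < 1 / (8 * (d + 1)) := by positivity
  obtain ⟨n₀, hn₀⟩ := Filter.eventually_atTop.1 (h1.eventually (gt_mem_nhds h2))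
  refine ⟨2 ^ n₀, fun x hx => ?_⟩
  set n := Nat.size x with hn
  have h3 : n₀ < n := Nat.lt_size.2 hx
  have h4 : 2 ^ (n - 1) ≤ x := by
    rw [← Nat.lt_size, ← hn]
    omega
  have h5 := hn₀ (n + 2) (by omega)
  have h6 : (0 : ℝ) < 2 ^ (n + 2) := by positivity
  rw [div_lt_div_iff₀ h6 (by positivity)] at h5
  have h7 : (d : ℝ) * ((n : ℝ) + 2) ^ e ≤ 2 ^ (n - 1) := by
    have e1 : (2 : ℝ) ^ (n + 2) = 8 * 2 ^ (n - 1) := by
      have : n + 2 = 3 + (n - 1) := by omega
      rw [this, pow_add]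
      norm_num
    rw [e1] at h5
    push_cast at h5
    have h8 : (0 : ℝ) ≤ ((n : ℝ) + 2) ^ e := by positivity
    nlinarith
  have h8 : d * (n + 2) ^ e ≤ 2 ^ (n - 1) := by exact_mod_cast h7
  exact h8.trans h4

/-- Counting for asymptotic bases. -/
theorem basis_count {A : Set ℕ} {k N x : ℕ}
    (hA : ∀ n : ℕ, N ≤ n → ∃ s : Multiset ℕ, Multiset.card s = k ∧ (∀ a ∈ s, a ∈ A) ∧ s.sum = n) :
    x - N ≤ (A ∩ Set.Iio x).ncard ^ k := by
  classical
  have hfin : (A ∩ Set.Iio x).Finite := (Set.finite_Iio x).subset inter_subset_right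
  set F := hfin.toFinset with hF
  have h1 : Finset.Ico N x ⊆ (Fintype.piFinset fun _ : Fin k => F).image fun f => ∑ i, f i := by
    intro n hn
    rw [Finset.mem_Ico] at hn
    obtain ⟨s, hs, hsA, hsn⟩ := hA n hn.1
    obtain ⟨l, rfl⟩ := Quot.exists_rep s
    have hl : l.length = k := by simpa using hs
    subst hl
    rw [Finset.mem_image]
    refine ⟨l.get, ?_, ?_⟩
    · rw [Fintype.mem_piFinset]
      intro i
      rw [hF, Set.Finite.mem_toFinset]
      have hmem : l.get i ∈ l := List.get_mem l i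
      refine ⟨hsA _ hmem, ?_⟩
      have h2 : l.get i ≤ l.sum := List.le_sum_of_mem hmem
      have h3 : l.sum = n := by simpa using hsn
      rw [Set.mem_Iio]
      omega
    · have h3 : l.sum = n := by simpa using hsn
      rw [← h3]
      conv_rhs => rw [← List.ofFn_get l]
      rw [List.sum_ofFn]
  have h2 := Finset.card_le_card h1
  rw [Nat.card_Ico] at h2
  refine h2.trans (Finset.card_image_le.trans ?_)
  rw [Fintype.card_piFinset]
  simp only [Finset.prod_const, Finset.card_univ, Fintype.card_fin]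
  rw [hF, ← Set.ncard_eq_toFinset_card _ hfin]

/-- Some piece is not thin. -/
theorem exists_thick {ι : Type} [Fintype ι] {g : ι → ℕ} (hg : ∀ i, 2 ≤ g i) {B : ι → Set ℕ}
    {C : Set ℕ} {k : ℕ}
    (hC : ∀ c M : ℕ, ∃ x : ℕ, M ≤ x ∧ c * (C ∩ Set.Iio x).ncard ^ k ≤ x)
    (hA : IsAsymptoticBasis (C ∪ ⋃ i, B i) k)
    (hthin : ∀ i, ∃ E : ℕ, ∀ n, (B i ∩ Set.Iio (g i ^ n)).ncard ≤ (n + 2) ^ E) : False := by
  classical
  obtain ⟨N, hN⟩ := hA
  choose E hE using hthin
  let E' := Finset.univ.sup E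
  obtain ⟨M, hM⟩ := size_growth (4 * 2 ^ k * Fintype.card ι ^ k) (E' * k)
  obtain ⟨x, hx, hx2⟩ := hC (4 * 2 ^ k) (max M (2 * N + 1))
  have h1 := basis_count (x := x) hN
  set c := (C ∩ Set.Iio x).ncard with hc
  set t := Fintype.card ι * (Nat.size x + 2) ^ E' with ht
  have h2 : ((C ∪ ⋃ i, B i) ∩ Set.Iio x).ncard ≤ c + t := by
    rw [Set.union_inter_distrib_right]
    refine (Set.ncard_union_le _ _).trans (Nat.add_le_add_left ?_ c)
    rw [Set.iUnion_inter]
    have h3 : (⋃ i, B i ∩ Set.Iio x) = ⋃ i ∈ (Finset.univ : Finset ι), (B i ∩ Set.Iio x) := by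
      simp
    have h4 : ∀ s : Finset ι, (⋃ i ∈ s, (B i ∩ Set.Iio x)).ncard ≤
        s.card * (Nat.size x + 2) ^ E' := by
      intro s
      induction s using Finset.induction_on with
      | empty => simp
      | insert i s hi ih =>
        rw [Finset.set_biUnion_insert, Finset.card_insert_of_notMem hi, add_mul, one_mul, add_comm]
        refine (Set.ncard_union_le _ _).trans (Nat.add_le_add ?_ ih)
        have h5 : x < 2 ^ Nat.size x := Nat.lt_size_self x
        have h6 : x ≤ g i ^ Nat.size x := h5.le.trans (Nat.pow_le_pow_left (hg i) _)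
        refine (Set.ncard_le_ncard (inter_subset_inter_right _ (Set.Iio_subset_Iio h6))
          ((Set.finite_Iio _).subset inter_subset_right)).trans ((hE i _).trans ?_)
        exact Nat.pow_le_pow_right (by omega) (Finset.le_sup (f := E) (Finset.mem_univ i))
    rw [h3]
    exact h4 _
  have h3 : (c + t) ^ k ≤ 2 ^ k * (c ^ k + t ^ k) := by
    refine (add_pow_le (Nat.zero_le _) (Nat.zero_le _) k).trans ?_
    exact Nat.mul_le_mul_right _ (Nat.pow_le_pow_right (by omega) (by omega))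
  have h4 : 4 * 2 ^ k * t ^ k ≤ x := by
    have := hM x ((le_max_left _ _).trans hx)
    rw [ht, mul_pow, ← pow_mul, ← mul_assoc]
    exact this
  have h5 : x - N ≤ 2 ^ k * (c ^ k + t ^ k) := h1.trans ((Nat.pow_le_pow_left h2 k).trans h3)
  have h6 : 2 * N + 1 ≤ x := (le_max_right _ _).trans hx
  have h7 : 4 * (2 ^ k * (c ^ k + t ^ k)) = 4 * 2 ^ k * c ^ k + 4 * 2 ^ k * t ^ k := by ring
  omega

/-- **Erdős–Turán of every order for sets built from context-free sets.**
(i) A `g`-context-free set `B` has at most `(n+2)^E` elements below `g^n` for all `n`, for some `E`,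
or, for every superset `A` of `B` and every `h ≥ 2`, `r_{A,h}(N) ≥ N^(1/K)` for arbitrarily large
`N`, for some `K`.
(ii) If an asymptotic basis `A` of order `k` is the union of finitely many sets `B i`, each
context-free in its own base `g i`, and a set `C` with `liminf |C ∩ [0,x)|^k / x = 0`, then for
every `h ≥ 2` there is `K` with `r_{A,h}(N) ≥ N^(1/K)` for arbitrarily large `N`; in particular
`r_{A,h}` is unbounded.
(iii) Automatic sets are context-free. -/
theorem result :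
    (∀ g : ℕ, 2 ≤ g → ∀ B : Set ℕ, IsContextFreeSet g B →
      (∃ E : ℕ, ∀ n, (B ∩ Set.Iio (g ^ n)).ncard ≤ (n + 2) ^ E) ∨
      ∀ A : Set ℕ, B ⊆ A → ∀ h, 2 ≤ h → PowerLarge A h) ∧
    (∀ (ι : Type) (_ : Fintype ι) (g : ι → ℕ) (B : ι → Set ℕ) (C : Set ℕ) (k : ℕ),
      (∀ i, 2 ≤ g i) → (∀ i, IsContextFreeSet (g i) (B i)) →
      (∀ c M : ℕ, ∃ x : ℕ, M ≤ x ∧ c * (C ∩ Set.Iio x).ncard ^ k ≤ x) →
      IsAsymptoticBasis (C ∪ ⋃ i, B i) k →
      ∀ h, 2 ≤ h → PowerLarge (C ∪ ⋃ i, B i) h ∧ ∀ M : ℕ, ∃ n, M < r (C ∪ ⋃ i, B i) h n) ∧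
    (∀ g : ℕ, 2 ≤ g → ∀ A : Set ℕ, IsAutomaticSet g A → IsContextFreeSet g A) := by
  refine ⟨?_, ?_, ?_⟩
  · intro g hg B hB
    rcases dichotomy hg hB with h1 | h1
    · exact Or.inl h1
    · exact Or.inr fun A hBA h hh => (h1 h hh).mono hBA
  · intro ι _ g B C k hg hB hC hA h hh
    have hP : PowerLarge (C ∪ ⋃ i, B i) h := by
      by_contra hno
      refine exists_thick hg hC hA fun i => ?_
      rcases dichotomy (hg i) (hB i) with h1 | h1
      · exact h1
      · exact absurd ((h1 h hh).mono ((subset_iUnion B i).trans subset_union_right)) hno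
    refine ⟨hP, fun M => ?_⟩
    obtain ⟨K, hK⟩ := hP
    obtain ⟨N, hN1, hN2⟩ := hK (M ^ K + 1)
    refine ⟨N, ?_⟩
    by_contra hlt
    have := Nat.pow_le_pow_left (not_lt.1 hlt) K
    omega
  · rintro g hg A ⟨σ, _, M, hM⟩
    exact isContextFree_of_dfa hg M A hM

end Pool.Agent.Results.MP_d5a1e1_nt.ContextFree
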