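import Mathlib
import Pool.Agent.Q248.HP.Fin
import Pool.Agent.Q65.HP.Seq2

/-!
# The Erdős–Turán conjecture of order `h` for bases near the `h`-th powers

`rep A h n` is the number of representations of `n` as a sum of `h` elements of `A`, the order of the
summands being disregarded. Let `h ≥ 3`. There is `c > 0`, depending only on `h`, with the following
properties; `G c x = (log log x) ^ c`.

1. Let the elements of `A` up to `x` lie within `G c x` of the union of at most `G c x` sequences
   `α n ^ h + β` (`α ≥ 1 / G c x`, `β` real), for all large `x`. (For instance let all elements of `A`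
   lie within a bounded distance of finitely many such sequences.) If `A` is an asymptotic basis of
   order `h`, or only `A` has at least `x ^ (1 / h) / G c x` elements up to `x` for infinitely many `x`,
   then `rep A h s ≥ G c s` for infinitely many `s`; so `rep A h` is unbounded.
2. The statement for one large `x`: if `A` has at least `x ^ (1 / h) / G c x` elements up to `x`, all of
   them in the neighbourhood above, then `rep A h s ≥ G c x` for some `s ≤ h x`.

Method. Let `S` be a set of integers `n` with `α n ^ h + β` near `A`, of density `δ`. For a prime `p` the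
tuples `x` with `p ∣ x_1, …, x_h` have density `p ^ (-h)`, and so have the tuples of integers prime to `p`
with `p ^ h ∣ ∑ x_i ^ h`; so `∑ x_i ^ h` is divisible by `p ^ h` twice as often as a random integer. A set
`S` can avoid all the multiples of all the primes of some range; but it meets them if `p` is chosen at
random with probability proportional to `1 / p` in a set of primes with large `∑ 1 / p`: the weight
`W = (1 + W') / 2`, `W' = ∑_p (1 / (p L)) (p ^ h [p ∣ all x_i] + [the other tuples] / density) / 2`,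
has marginals near the uniform measure in mean square, and satisfies a reverse hypercontractive
inequality for `h` functions, `E W ∏ G_i(x_i) ^ M ≥ (99 / 100) ∏ (E G_i) ^ M`, `M = 16 (h + 1)`, which
tensorizes; on the other hand `W ≤ V (∑ x_i ^ h)` with `E V = 5 / 6`. With `J` blocks of primes this gives
`(99 / 100) ^ J (δ / 2) ^ (h M) ≤ (h + 2) (5 / 6) ^ J max_n #{x ∈ S ^ h | ∑ x_i ^ h = n}`.
-/

set_option autoImplicit false

namespace Pool.Agent.Results.MP_d5a1e1_nt.NearPowers

open Filter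

/-- The number of representations of `n` as a sum of `h` elements of `A`, without order. -/
noncomputable def rep (A : Set ℕ) (h n : ℕ) : ℕ :=
  Set.ncard {s : Multiset ℕ | Multiset.card s = h ∧ (∀ a ∈ s, a ∈ A) ∧ s.sum = n}

/-- `A` is an asymptotic basis of order `h`. -/
def IsBasis (A : Set ℕ) (h : ℕ) : Prop :=
  ∃ n₀ : ℕ, ∀ n : ℕ, n₀ ≤ n →
    ∃ s : Multiset ℕ, Multiset.card s = h ∧ (∀ a ∈ s, a ∈ A) ∧ s.sum = n

/-- `(log log x) ^ c`. -/
noncomputable def G (c : ℝ) (x : ℕ) : ℝ := Real.log (Real.log x) ^ c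

/-- The number of elements of `A` up to `x`. -/
noncomputable def count (A : Set ℕ) (x : ℕ) : ℕ := {a : ℕ | a ∈ A ∧ a ≤ x}.ncard

/-- The elements of `A` up to `x` lie within `H` of at most `H` sequences `α n ^ h + β`, `α ≥ 1 / H`. -/
def Near (A : Set ℕ) (h x : ℕ) (H : ℝ) : Prop :=
  ∃ F : Finset (ℝ × ℝ), (F.card : ℝ) ≤ H ∧ (∀ f ∈ F, H⁻¹ ≤ f.1) ∧
    ∀ a ∈ A, a ≤ x → ∃ f ∈ F, ∃ n : ℕ, |(a : ℝ) - (f.1 * n ^ h + f.2)| ≤ H

lemma Near.mono {A : Set ℕ} {h x : ℕ} {H H' : ℝ} (hH : 0 < H) (hHH : H ≤ H')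
    (hA : Near A h x H) : Near A h x H' := by
  obtain ⟨F, h1, h2, h3⟩ := hA
  refine ⟨F, h1.trans hHH, fun f hf => (inv_anti₀ hH hHH).trans (h2 f hf), fun a ha hax => ?_⟩
  obtain ⟨f, hf, n, hn⟩ := h3 a ha hax
  exact ⟨f, hf, n, hn.trans hHH⟩

lemma exists_fun (l : List ℕ) : ∀ h : ℕ, l.length = h →
    ∃ f : Fin h → ℕ, (∀ i, f i ∈ l) ∧ ∑ i, f i = l.sum := by
  rintro h rfl
  exact ⟨fun i => l[i], fun i => List.getElem_mem _, Fin.sum_univ_getElem l⟩

lemma count_pow_of_basis {A : Set ℕ} {h : ℕ} (hA : IsBasis A h) :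
    ∃ n₀ : ℕ, ∀ x : ℕ, (x : ℝ) + 1 - n₀ ≤ (count A x : ℝ) ^ h := by
  classical
  obtain ⟨n₀, h0⟩ := hA
  refine ⟨n₀, fun x => ?_⟩
  have hfin : {a : ℕ | a ∈ A ∧ a ≤ x}.Finite := (Set.finite_Iic x).subset fun a ha => ha.2
  set B := hfin.toFinset with hB
  have hBc : B.card = count A x := (Set.ncard_eq_toFinset_card _ hfin).symm
  have h1 : Finset.Icc n₀ x ⊆ (Fintype.piFinset fun _ : Fin h => B).image fun f => ∑ i, f i := by
    intro n hn
    rw [Finset.mem_Icc] at hn
    obtain ⟨s, hs1, hs2, hs3⟩ := h0 n hn.1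
    obtain ⟨f, hf1, hf2⟩ := exists_fun s.toList h (by rw [Multiset.length_toList, hs1])
    rw [Multiset.sum_toList, hs3] at hf2
    rw [Finset.mem_image]
    refine ⟨f, ?_, hf2⟩
    rw [Fintype.mem_piFinset]
    intro i
    rw [hB, Set.Finite.mem_toFinset]
    refine ⟨hs2 _ (Multiset.mem_toList.1 (hf1 i)), ?_⟩
    refine le_trans ?_ hn.2
    rw [← hf2]
    exact Finset.single_le_sum (fun _ _ => Nat.zero_le _) (Finset.mem_univ i)
  have h2 := (Finset.card_le_card h1).trans Finset.card_image_le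
  rw [Nat.card_Icc, Fintype.card_piFinset, Finset.prod_const, Finset.card_univ, Fintype.card_fin,
    hBc] at h2
  have h3 : (x : ℝ) + 1 ≤ ((x + 1 - n₀ : ℕ) : ℝ) + n₀ := by
    exact_mod_cast (by omega : x + 1 ≤ (x + 1 - n₀) + n₀)
  have h4 : ((x + 1 - n₀ : ℕ) : ℝ) ≤ (count A x : ℝ) ^ h := by exact_mod_cast h2
  linarith

/-- **Bases near the `h`-th powers.** -/
theorem result (h : ℕ) (hh : 3 ≤ h) : ∃ c : ℝ, 0 < c ∧
    -- 1. the Erdős–Turán conjecture of order `h` for these sets
    (∀ A : Set ℕ, (∀ᶠ x : ℕ in atTop, Near A h x (G c x)) →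
      (IsBasis A h ∨ ∃ᶠ x : ℕ in atTop, (x : ℝ) ^ (1 / h : ℝ) / G c x ≤ (count A x : ℝ)) →
      (∃ᶠ s : ℕ in atTop, G c s ≤ (rep A h s : ℝ)) ∧ ∀ M : ℕ, ∃ n : ℕ, M < rep A h n) ∧
    -- 2. one large `x`
    (∀ᶠ x : ℕ in atTop, ∀ A : Set ℕ, Near A h x (G c x) →
      (x : ℝ) ^ (1 / h : ℝ) / G c x ≤ (count A x : ℝ) →
      ∃ s : ℕ, s ≤ h * x ∧ G c x ≤ (rep A h s : ℝ)) := by
  obtain ⟨c₀, hc₀, hmain⟩ := Pool.Agent.Q248.HP.t_SEQ Pool.Agent.Q248.HP.t_INT h hh
  have hc : 0 < c₀ / 2 := by positivity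
  have hll : Tendsto (fun x : ℕ => Real.log (Real.log (x : ℝ))) atTop atTop :=
    Pool.Agent.Q248.HP.tend_ll
  -- comparison of the two exponents
  have hcmp : ∀ᶠ x : ℕ in atTop, 1 ≤ G (c₀ / 2) x ∧ G (c₀ / 2) x ≤ G c₀ x ∧
      0 < Real.log (Real.log (x : ℝ)) := by
    filter_upwards [hll.eventually (eventually_ge_atTop (1 : ℝ))] with x hx
    exact ⟨Real.one_le_rpow hx hc.le, Real.rpow_le_rpow_of_exponent_le hx (by linarith), by linarith⟩
  -- statement 2
  have h2 : ∀ᶠ x : ℕ in atTop, ∀ A : Set ℕ, Near A h x (G (c₀ / 2) x) →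
      (x : ℝ) ^ (1 / h : ℝ) / G (c₀ / 2) x ≤ (count A x : ℝ) →
      ∃ s : ℕ, s ≤ h * x ∧ G c₀ x ≤ (rep A h s : ℝ) := by
    filter_upwards [hmain, hcmp] with x hx hx1 A hA hcount
    refine hx A (hA.mono (by linarith [hx1.1]) hx1.2.1) (le_trans ?_ hcount)
    exact div_le_div_of_nonneg_left (by positivity) (by linarith [hx1.1]) hx1.2.1
  refine ⟨c₀ / 2, hc, fun A hA hthick => ?_, ?_⟩
  · -- infinitely many thick `x`
    have hth : ∃ᶠ x : ℕ in atTop, (x : ℝ) ^ (1 / h : ℝ) / G (c₀ / 2) x ≤ (count A x : ℝ) := by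
      rcases hthick with hb | hb
      · refine Eventually.frequently ?_
        obtain ⟨n₀, hn₀⟩ := count_pow_of_basis hb
        have hG : ∀ᶠ x : ℕ in atTop, 2 ≤ G (c₀ / 2) x :=
          ((tendsto_rpow_atTop hc).comp hll).eventually (eventually_ge_atTop 2)
        filter_upwards [eventually_ge_atTop (2 * n₀), eventually_ge_atTop 1, hG] with x hx1 hx2 hx3
        have hx0 : (0 : ℝ) ≤ x := Nat.cast_nonneg x
        have hh0 : (h : ℝ) ≠ 0 := by positivity
        have h4 : (x : ℝ) / 2 ≤ (count A x : ℝ) ^ h := by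
          have := hn₀ x
          have h5 : (2 : ℝ) * n₀ ≤ x := by exact_mod_cast hx1
          linarith
        have h5 : ((x : ℝ) ^ (1 / h : ℝ) / G (c₀ / 2) x) ^ h ≤ (count A x : ℝ) ^ h := by
          rw [div_pow, ← Real.rpow_natCast, ← Real.rpow_mul hx0, one_div, inv_mul_cancel₀ hh0,
            Real.rpow_one]
          refine le_trans ?_ h4
          refine div_le_div_of_nonneg_left hx0 (by norm_num) ?_
          calc (2 : ℝ) = 2 ^ 1 := (pow_one _).symm
            _ ≤ 2 ^ h := pow_le_pow_right₀ (by norm_num) (by omega)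
            _ ≤ G (c₀ / 2) x ^ h := pow_le_pow_left₀ (by norm_num) hx3 h
        exact le_of_pow_le_pow_left₀ (by omega) (Nat.cast_nonneg _) h5
      · exact hb
    -- comparison of `G` at `s` and `x`
    have hGs : ∀ᶠ x : ℕ in atTop, ∀ s : ℕ, s ≤ h * x → G (c₀ / 2) s ≤ G c₀ x := by
      have e1 : ∀ᶠ x : ℕ in atTop, 2 ≤ Real.log (Real.log (x : ℝ)) :=
        hll.eventually (eventually_ge_atTop 2)
      filter_upwards [e1, eventually_ge_atTop h, eventually_ge_atTop 3] with x hx1 hx2 hx3 s hs
      set y := Real.log (Real.log (x : ℝ)) with hy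
      have hx0 : (0 : ℝ) < x := by positivity
      have hlx : 0 < Real.log (x : ℝ) := Real.log_pos (by exact_mod_cast (by omega : 1 < x))
      have hG0 : G c₀ x = (y ^ 2) ^ (c₀ / 2) := by
        show y ^ c₀ = _
        rw [← Real.rpow_natCast, ← Real.rpow_mul (by linarith)]
        congr 1
        push_cast
        ring
      rw [hG0]
      show Real.log (Real.log (s : ℝ)) ^ (c₀ / 2) ≤ _
      by_cases hs3 : 3 ≤ s
      · have hs0 : (0 : ℝ) < s := by positivity
        have hls : 1 ≤ Real.log (s : ℝ) := by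
          rw [Real.le_log_iff_exp_le hs0]
          have := Real.exp_one_lt_d9
          have h3 : (3 : ℝ) ≤ s := by exact_mod_cast hs3
          linarith
        refine Real.rpow_le_rpow (Real.log_nonneg hls) ?_ hc.le
        have h6 : Real.log (s : ℝ) ≤ 2 * Real.log (x : ℝ) := by
          have h7 : (s : ℝ) ≤ (x : ℝ) * x := by
            calc (s : ℝ) ≤ ((h * x : ℕ) : ℝ) := by exact_mod_cast hs
              _ = (h : ℝ) * x := by push_cast; ring
              _ ≤ (x : ℝ) * x := by
                refine mul_le_mul_of_nonneg_right ?_ hx0.le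
                exact_mod_cast hx2
          calc Real.log (s : ℝ) ≤ Real.log ((x : ℝ) * x) := Real.log_le_log hs0 h7
            _ = 2 * Real.log x := by rw [Real.log_mul hx0.ne' hx0.ne']; ring
        calc Real.log (Real.log (s : ℝ)) ≤ Real.log (2 * Real.log (x : ℝ)) :=
              Real.log_le_log (by linarith) h6
          _ = Real.log 2 + y := by rw [Real.log_mul (by norm_num) hlx.ne']
          _ ≤ y ^ 2 := by
            have := Real.log_two_lt_d9
            nlinarith
      · have hs' : s ≤ 2 := by omega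
        have h8 : |Real.log (Real.log (s : ℝ))| ≤ y ^ 2 := by
          have h9 : s = 0 ∨ s = 1 ∨ s = 2 := by omega
          rcases h9 with h9 | h9 | h9
          · subst h9; simp; positivity
          · subst h9; simp; positivity
          · subst h9
            have l2 := Real.log_two_gt_d9
            have l2' := Real.log_two_lt_d9
            have h10 : Real.log (Real.log ((2 : ℕ) : ℝ)) ≤ 0 := by
              push_cast
              exact Real.log_nonpos (by linarith) (by linarith)
            have h11 : -1 ≤ Real.log (Real.log ((2 : ℕ) : ℝ)) := by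
              push_cast
              rw [Real.le_log_iff_exp_le (by linarith)]
              have := Real.exp_neg_one_lt_d9
              linarith
            rw [abs_of_nonpos h10]
            nlinarith
        have h12 : Real.log (Real.log (s : ℝ)) ^ (c₀ / 2) ≤
            |Real.log (Real.log (s : ℝ))| ^ (c₀ / 2) :=
          (le_abs_self _).trans (Real.abs_rpow_le_abs_rpow _ _)
        exact h12.trans (Real.rpow_le_rpow (abs_nonneg _) h8 hc.le)
    have hbig : ∀ N : ℕ, ∀ᶠ x : ℕ in atTop, ∀ s < N, (rep A h s : ℝ) < G c₀ x := by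
      intro N
      have hG : Tendsto (fun x : ℕ => G c₀ x) atTop atTop := (tendsto_rpow_atTop hc₀).comp hll
      have := hG.eventually (eventually_gt_atTop (∑ s ∈ Finset.range N, (rep A h s : ℝ)))
      filter_upwards [this] with x hx s hs
      refine lt_of_le_of_lt ?_ hx
      exact Finset.single_le_sum (f := fun s => (rep A h s : ℝ)) (fun _ _ => Nat.cast_nonneg _)
        (Finset.mem_range.2 hs)
    have hfreq : ∀ N : ℕ, ∃ s : ℕ, N ≤ s ∧ ∃ x : ℕ, N ≤ x ∧ G (c₀ / 2) s ≤ G c₀ x ∧
        G c₀ x ≤ (rep A h s : ℝ) := by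
      intro N
      obtain ⟨x, hx1, hx2, hx3, hx4, hx5, hx6⟩ :=
        (hth.and_eventually (h2.and (hGs.and ((hbig N).and (hA.and
          (eventually_ge_atTop N)))))).exists
      obtain ⟨s, hs1, hs2⟩ := hx2 A hx5 hx1
      refine ⟨s, ?_, x, hx6, hx3 s hs1, hs2⟩
      by_contra hcon
      rw [not_le] at hcon
      exact absurd (hx4 s hcon) (not_lt.2 hs2)
    refine ⟨?_, fun M => ?_⟩
    · rw [frequently_atTop]
      intro N
      obtain ⟨s, hs, x, _, h3, h4⟩ := hfreq N
      exact ⟨s, hs, h3.trans h4⟩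
    · have hG : Tendsto (fun x : ℕ => G c₀ x) atTop atTop := (tendsto_rpow_atTop hc₀).comp hll
      obtain ⟨N, hN⟩ := eventually_atTop.1 (hG.eventually (eventually_gt_atTop (M : ℝ)))
      obtain ⟨s, _, x, hx, _, h4⟩ := hfreq N
      refine ⟨s, ?_⟩
      have := (hN x hx).trans_le h4
      exact_mod_cast this
  · filter_upwards [h2, hcmp] with x hx hx1 A hA hcount
    obtain ⟨s, hs1, hs2⟩ := hx A hA hcount
    exact ⟨s, hs1, hx1.2.1.trans hs2⟩

end Pool.Agent.Results.MP_d5a1e1_nt.NearPowers
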