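import Pool.Agent.Q152.RigidMain
import Pool.Agent.W167.ET.Bounded

/-!
# MP_d5a1e1_nt: bases of order `h` after random displacements of long rigid pieces

Cut the natural numbers into intervals `[N_s, N_(s+1))` with `N_(s+1) / N_s → 1`, arbitrarily
slowly (so the pieces contain more and more elements of the set), and move all the elements of `A`
in the `s`-th interval by the same random amount `t_s`.  If `limsup |A ∩ [1, n]| ^ h / n > 0`, in
particular if `A` is an asymptotic basis of order `h`, then the representation function of order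
`h` of the new set is almost surely unbounded.

Method (`Pool.Agent.Q152.RigidPieces`, `RigidScale`, `RigidMain`).  In infinitely many dyadic blocks
`[X, 2X)` the set has at least `c X ^ (1/h)` elements.  A piece with many elements in such a block
is short and has many representations by itself.  Otherwise we take two groups of pieces, freeze
the shifts of the first group (without collisions, with probability at least one half), and hit
with the pieces of the second group the targets `n - (sum of h - 1 frozen elements)`; the numbers of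
sums are bounded below because otherwise some integer has many representations, for every
position of the pieces.  The different scales are independent.
-/

set_option autoImplicit false

open MeasureTheory ProbabilityTheory Filter

namespace Pool.Agent.Results.MP_d5a1e1_nt.RigidPieces

/-- `rep A h n` is the number of unordered representations of `n` as a sum of `h` elements of
`A`. -/
noncomputable def rep (A : Set ℕ) (h n : ℕ) : ℕ :=
  Set.ncard {s : Multiset ℕ | Multiset.card s = h ∧ (∀ a ∈ s, a ∈ A) ∧ s.sum = n}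

/-- `A` is an asymptotic basis of order `h`. -/
def IsBasis (A : Set ℕ) (h : ℕ) : Prop :=
  ∃ N, ∀ n, N ≤ n → ∃ s : Multiset ℕ, Multiset.card s = h ∧ (∀ a ∈ s, a ∈ A) ∧ s.sum = n

/-- the elements `a` of `A` with `N s ≤ a < N (s + 1)` are moved to `a + x s`, for all `s` -/
def moved (A : Set ℕ) (N : ℕ → ℕ) (x : ℕ → ℕ) : Set ℕ :=
  {v | ∃ s, ∃ a ∈ A, N s ≤ a ∧ a < N (s + 1) ∧ v = a + x s}

/-- The product of the uniform probability measures on `{0, …, w n}`. -/
noncomputable def unif (w : ℕ → ℕ) : Measure (∀ n, Fin (w n + 1)) :=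
  Measure.infinitePi fun n => (PMF.uniformOfFintype (Fin (w n + 1))).toMeasure

/-- `limsup |A ∩ [1, n]| ^ h / n > 0` -/
def Thick (A : Set ℕ) (h : ℕ) : Prop :=
  ∃ c : ℝ, 0 < c ∧ ∃ᶠ n : ℕ in atTop, c * n ≤ ((A ∩ Set.Icc 1 n).ncard : ℝ) ^ h

theorem thick_of_basis (A : Set ℕ) (h : ℕ) (hA : IsBasis A h) : Thick A h := by
  classical
  obtain ⟨n0, hn0⟩ := hA
  obtain ⟨hinf, hgrow⟩ := Pool.Agent.W167.ET.basis_growth A h n0 hn0
  refine ⟨1 / ((n0 + 1) * 3 ^ h), by positivity, ?_⟩
  apply Eventually.frequently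
  obtain ⟨a1, ha1, ha1'⟩ := (Set.infinite_iff_exists_gt.1 hinf) 0
  filter_upwards [eventually_ge_atTop a1] with n hn
  set m := (A ∩ Set.Icc 1 n).ncard with hm
  have hfin : (A ∩ Set.Icc 1 n).Finite := (Set.finite_Icc 1 n).subset Set.inter_subset_right
  have hm1 : 1 ≤ m := by
    rw [hm, Nat.one_le_iff_ne_zero, ← Nat.pos_iff_ne_zero, Set.ncard_pos hfin]
    exact ⟨a1, ha1, ha1', hn⟩
  have hcount : Nat.count (· ∈ A) (n + 1) ≤ m + 1 := by
    rw [Nat.count_eq_card_filter_range]
    have h1 : (((Finset.range (n + 1)).filter (· ∈ A) : Finset ℕ) : Set ℕ) ⊆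
        insert 0 (A ∩ Set.Icc 1 n) := by
      intro a ha
      rw [Finset.mem_coe, Finset.mem_filter, Finset.mem_range] at ha
      rcases Nat.eq_zero_or_pos a with h0 | h0
      · left; exact h0
      · right; exact ⟨ha.2, h0, by omega⟩
    have h2 := Set.ncard_le_ncard h1 (hfin.insert 0)
    rw [Set.ncard_coe_finset] at h2
    exact h2.trans (Set.ncard_insert_le _ _)
  have hnth : n + 1 ≤ Nat.nth (· ∈ A) (Nat.count (· ∈ A) (n + 1)) :=
    Nat.le_nth_count (p := (· ∈ A)) hinf (n + 1)
  have h3 := hgrow (Nat.count (· ∈ A) (n + 1))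
  have h4 : (Nat.count (· ∈ A) (n + 1) + 1) ^ h ≤ (3 * m) ^ h :=
    Nat.pow_le_pow_left (by omega) h
  have h5 : n ≤ (n0 + 1) * (3 * m) ^ h := by
    have h6 := Nat.mul_le_mul_left (n0 + 1) h4
    omega
  have h6 : (n : ℝ) ≤ (n0 + 1) * (3 * m) ^ h := by exact_mod_cast h5
  rw [div_mul_eq_mul_div, one_mul, div_le_iff₀ (by positivity)]
  rw [mul_pow] at h6
  linarith

theorem result :
    ∀ h : ℕ, 2 ≤ h → ∀ A : Set ℕ, (Thick A h ∨ IsBasis A h) →
    ∀ N : ℕ → ℕ, N 0 = 0 → StrictMono N →
      Tendsto (fun s => (N (s + 1) : ℝ) / N s) atTop (nhds 1) →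
    ∀ (w : ℕ → ℕ) (δ : ℝ) (C : ℕ), 0 < δ → (∀ s, δ * N (s + 1) ≤ w s + 1) →
      (∀ s, w s ≤ C * N (s + 1)) →
    (∀ (Ω : Type) (_ : MeasurableSpace Ω) (μ : Measure Ω) (t : ℕ → Ω → ℕ) (B : ℝ),
        iIndepFun t μ → (∀ s, Measurable (t s)) → (∀ s ω, t s ω ≤ w s) →
        (∀ s j, μ.real {ω | t s ω = j} ≤ B / (w s + 1)) →
        ∀ᵐ ω ∂μ, ∀ K, ∃ m, K ≤ rep (moved A N fun s => t s ω) h m) ∧
      (∀ᵐ x ∂(unif w), ∀ K, ∃ m, K ≤ rep (moved A N fun s => (x s : ℕ)) h m) := by
  intro h hh A hA N hN0 hN hN1 w δ C hδ hw1 hw2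
  have hT : Thick A h := by
    rcases hA with hA | hA
    · exact hA
    · exact thick_of_basis A h hA
  obtain ⟨c, hc, hA'⟩ := hT
  refine ⟨?_, ?_⟩
  · intro Ω _ μ t B h1 h2 h3 h4
    exact Pool.Agent.Q152.RigidPieces.rigid (B := B) ⟨h1, h2, h3, h4⟩ h C hh A c δ hc hA' N hN0 hN
      hN1 hδ hw1 hw2
  · exact Pool.Agent.Q152.RigidPieces.rigid (Pool.Agent.W167.ET.pert_unif w) h C hh A c δ hc hA' N
      hN0 hN hN1 hδ hw1 hw2

end Pool.Agent.Results.MP_d5a1e1_nt.RigidPieces
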